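import Pool.Agent.H30.GMC.StT

/-!
GMC, module LOCZ: the local estimate for the discrepancies of `ℙ(1,1,1,2)`.
-/

open AlgebraicGeometry CategoryTheory FCB MvPolynomial

namespace GMC.LOCZ

section

variable {X Y : Scheme.{0}} [IsIntegral X] [IsIntegral Y]

theorem UnitAt.ne_zero {x : X} {f : X.functionField} (h : UnitAt x f) : f ≠ 0 := by
  obtain ⟨s, hs, rfl⟩ := h
  exact (hs.map (algebraMap _ X.functionField)).ne_zero

theorem UnitAt.reg {x : X} {f : X.functionField} (h : UnitAt x f) : RegAt x f := by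
  obtain ⟨s, hs, rfl⟩ := h
  exact ⟨s, rfl⟩

theorem reg_ffHom (s : X ⟶ Spec (.of ℂ)) (x : X) (z : ℂ) : RegAt x (ffHom s z) := by
  have : Nonempty (⊤ : X.Opens) := ⟨⟨x, trivial⟩⟩
  exact ⟨(X.presheaf.germ ⊤ x trivial).hom (secHom s ⊤ z),
    X.algebraMap_germ_eq_germToFunctionField (U := ⊤) (x := x) trivial (secHom s ⊤ z)⟩

/-- The local ring as a subring of the function field. -/
noncomputable def O (x : X) : Subring X.functionField :=
  (algebraMap (X.presheaf.stalk x) X.functionField).range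

theorem mem_O (x : X) (f : X.functionField) : f ∈ O x ↔ RegAt x f := Iff.rfl

variable [IsLocallyNoetherian X] [IsLocallyNoetherian Y]

/-- The pull-back of rational functions as a ring homomorphism. -/
theorem exists_pull (hP : S_PULA) (hB : S_BIRF) (g : Y ⟶ X)
    (hg : g (genericPoint Y) = genericPoint X) :
    ∃ φ : X.functionField →+* Y.functionField, (∀ a, IsPull g a (φ a)) ∧
      ∀ a b, IsPull g a b → b = φ a := by
  choose f hf using hB.1 X Y g hg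
  obtain ⟨h1, h2, h3, h4, h5, h6, h7⟩ := hP X Y g
  refine ⟨RingHom.mk' ⟨⟨f, ?_⟩, ?_⟩ ?_, fun a => (hf a).1, fun a b h => h1 _ _ _ h (hf a).1⟩
  · exact h1 _ _ _ (hf 1).1 h3
  · intro a b
    exact h1 _ _ _ (hf _).1 (h2 _ _ _ _ (hf a).1 (hf b).1).1
  · intro a b
    exact h1 _ _ _ (hf _).1 (h2 _ _ _ _ (hf a).1 (hf b).1).2

theorem isDV (hO : S_ORDV) (E : PrimeDiv X) (hE : IsIntegrallyClosed (X.presheaf.stalk E.1)) :
    IsDV (K := X.functionField) (O E.1) (fun f => Scheme.ord f E.1) where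
  mul := fun a b ha hb => Scheme.ord_mul ha hb
  mem := by
    intro a
    by_cases ha : a = 0
    · subst ha
      exact ⟨fun _ => Or.inl rfl, fun _ => Subring.zero_mem _⟩
    · rw [mem_O, (hO X E hE).1 a ha]
      exact ⟨Or.inr, fun h => h.resolve_left ha⟩
  unif := (hO X E hE).2.2

end

section Val

variable {K : Type} [Field K] {O : Subring K} {v : K → ℤ}

theorem v_one (h : IsDV O v) : v 1 = 0 := by
  have := h.mul 1 1 one_ne_zero one_ne_zero
  rw [mul_one] at this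
  omega

theorem v_neg_one (h : IsDV O v) : v (-1) = 0 := by
  have := h.mul (-1) (-1) (neg_ne_zero.2 one_ne_zero) (neg_ne_zero.2 one_ne_zero)
  rw [neg_mul_neg, mul_one, v_one h] at this
  omega

theorem v_neg (h : IsDV O v) (a : K) (ha : a ≠ 0) : v (-a) = v a := by
  have := h.mul (-1) a (neg_ne_zero.2 one_ne_zero) ha
  rw [neg_one_mul, v_neg_one h] at this
  omega

theorem v_inv (h : IsDV O v) (a : K) (ha : a ≠ 0) : v a⁻¹ = -v a := by
  have := h.mul a a⁻¹ ha (inv_ne_zero ha)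
  rw [mul_inv_cancel₀ ha, v_one h] at this
  omega

theorem v_pow (h : IsDV O v) (a : K) (ha : a ≠ 0) (n : ℕ) : v (a ^ n) = n * v a := by
  induction n with
  | zero => simp [v_one h]
  | succ n ih =>
    rw [pow_succ, h.mul _ _ (pow_ne_zero _ ha) ha, ih]
    push_cast
    ring

theorem v_div (h : IsDV O v) (a b : K) (ha : a ≠ 0) (hb : b ≠ 0) : v (a / b) = v a - v b := by
  rw [div_eq_mul_inv, h.mul _ _ ha (inv_ne_zero hb), v_inv h b hb]
  ring

end Val

/-- The first coordinate used in the change of charts. -/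
def pv (i : Fin 3) : Option (Fin 3) :=
  match i with
  | 0 => none
  | 1 => some 0
  | 2 => some 1

theorem map_xi {K L : Type} [Field K] [Field L] (φ : K →+* L) (ξ : Fin 3 → K) (i j : Fin 3) :
    φ (xi ξ i j) = xi (fun j => φ (ξ j)) i j := by
  fin_cases i <;> fin_cases j <;> simp [xi]

theorem map_wq {K L : Type} [Field K] [Field L] (φ : K →+* L) (ξ : Fin 3 → K) (q : Fin 4) :
    φ (wq ξ q) = wq (fun j => φ (ξ j)) q := by
  fin_cases q <;> simp [wq]

theorem map_aeval' {K L : Type} [Field K] [Field L] [Algebra ℂ K] [Algebra ℂ L] (φ : K →+* L)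
    (hφ : ∀ z : ℂ, φ (algebraMap ℂ K z) = algebraMap ℂ L z) (a : Fin 3 → K)
    (F : MvPolynomial (Fin 3) ℂ) : φ (aeval a F) = aeval (fun i => φ (a i)) F := by
  rw [aeval_def, aeval_def, MvPolynomial.eval₂_eq', MvPolynomial.eval₂_eq', map_sum]
  refine Finset.sum_congr rfl fun d _ => ?_
  rw [map_mul, hφ, map_prod]
  simp only [map_pow]

theorem wq_ne {K : Type} [Field K] (ξ : Fin 3 → K) (h : ∀ i, ξ i ≠ 0) (q : Fin 4) :
    wq ξ q ≠ 0 := by
  fin_cases q <;> simp [wq, h]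

/-- The relation between the Jacobian determinant and the weight in the chart `i`. -/
theorem v_chart (hJ : S_JCHG) {K : Type} [Field K] [Algebra ℂ K] {O : Subring K} {v : K → ℤ}
    (h : IsDV O v) (δ : Fin 3 → Derivation ℂ K K) (ξ : Fin 3 → K) (hξ : ∀ i, ξ i ≠ 0)
    (hJac : Jac δ ξ ≠ 0) (i : Fin 3) :
    Jac δ (xi ξ i) ≠ 0 ∧ 2 * v (Jac δ (xi ξ i)) = 2 * v (Jac δ ξ) - 5 * v (wq ξ (ch i)) := by
  obtain ⟨h0, h1, -⟩ := hJ K δ ξ
  fin_cases i
  · refine ⟨hJac, ?_⟩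
    have : wq ξ (ch 0) = 1 := rfl
    change 2 * v (Jac δ ξ) = 2 * v (Jac δ ξ) - 5 * v (wq ξ (ch 0))
    rw [this, v_one h]
    ring
  · change Jac δ ![(ξ 0)⁻¹, ξ 1 * (ξ 0)⁻¹, ξ 2 * (ξ 0)⁻¹ ^ 2] ≠ 0 ∧
      2 * v (Jac δ ![(ξ 0)⁻¹, ξ 1 * (ξ 0)⁻¹, ξ 2 * (ξ 0)⁻¹ ^ 2]) =
      2 * v (Jac δ ξ) - 5 * v (ξ 0 ^ 2)
    rw [h0 (hξ 0)]
    have h3 : (ξ 0)⁻¹ ^ 5 ≠ 0 := pow_ne_zero _ (inv_ne_zero (hξ 0))
    refine ⟨mul_ne_zero (neg_ne_zero.2 h3) hJac, ?_⟩
    rw [h.mul _ _ (neg_ne_zero.2 h3) hJac, v_neg h _ h3, v_pow h _ (inv_ne_zero (hξ 0)),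
      v_inv h _ (hξ 0), v_pow h _ (hξ 0)]
    push_cast
    ring
  · change Jac δ ![(ξ 1)⁻¹, ξ 0 * (ξ 1)⁻¹, ξ 2 * (ξ 1)⁻¹ ^ 2] ≠ 0 ∧
      2 * v (Jac δ ![(ξ 1)⁻¹, ξ 0 * (ξ 1)⁻¹, ξ 2 * (ξ 1)⁻¹ ^ 2]) =
      2 * v (Jac δ ξ) - 5 * v (ξ 1 ^ 2)
    rw [h1 (hξ 1)]
    have h3 : (ξ 1)⁻¹ ^ 5 ≠ 0 := pow_ne_zero _ (inv_ne_zero (hξ 1))
    refine ⟨mul_ne_zero h3 hJac, ?_⟩
    rw [h.mul _ _ h3 hJac, v_pow h _ (inv_ne_zero (hξ 1)),
      v_inv h _ (hξ 1), v_pow h _ (hξ 1)]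
    push_cast
    ring

end GMC.LOCZ

namespace GMC

open LOCZ in
theorem locz_thm (hOR : S_ORDV) (hPU : S_PULA) (hBI : S_BIRF) (hFD : S_FDER) (hLC : S_LOCO)
    (hJC : S_JCHG) (hLS : S_LOCS) (hXI : S_XIEX) (hXU : S_XUQR) (hXC : S_XCHA) (hXP : S_XPRI) :
    S_LOCZ := by
  intro M ξ hξ W g E ξ' k q u' hstr hbir hE hpull hform hq hu'
  obtain ⟨φ, hφ1, hφ2⟩ := exists_pull hPU hBI g hbir.1
  obtain ⟨p1, p2, p3, p4, p5, p6, p7⟩ := hPU M.X W.X g
  let iX : Algebra ℂ M.X.functionField := (ffHom M.str).toAlgebra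
  let iW : Algebra ℂ W.X.functionField := (ffHom W.str).toAlgebra
  have hφC : ∀ z : ℂ, φ (algebraMap ℂ M.X.functionField z) = algebraMap ℂ W.X.functionField z := by
    intro z
    refine (hφ2 _ _ ?_).symm
    have := p7 M.str z
    rw [hstr] at this
    exact this
  have hreg : ∀ a, RegAt (g E.1) a → RegAt E.1 (φ a) ∧ (UnitAt E.1 (φ a) ↔ UnitAt (g E.1) a) := by
    intro a ha
    obtain ⟨b, hb, hb2, hb3⟩ := p6 E.1 a ha
    rw [← hφ2 a b hb]
    exact ⟨hb2, hb3⟩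
  have hunit : ∀ a, UnitAt (g E.1) a → UnitAt E.1 (φ a) := fun a ha =>
    (hreg a (UnitAt.reg ha)).2.2 ha
  have hDV := isDV hOR E hE
  obtain ⟨o1, o2, o3⟩ := hOR W.X E hE
  have hξ' : ξ' = fun i => φ (ξ i) := funext fun i => hφ2 _ _ (hpull i)
  obtain ⟨hξ0, hξalg, -⟩ := (hXI M).2 ξ hξ
  have hξ'0 : ∀ i, ξ' i ≠ 0 := by
    intro i
    rw [hξ']
    exact (map_ne_zero φ).2 (hξ0 i)
  have hu : u' = (wq ξ' q)⁻¹ := by
    rw [hφ2 _ _ hu', map_inv₀, map_wq, hξ']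
  obtain ⟨δ, hδ1, hδ2, hδ3⟩ := hFD W.X W.str 3 ξ' E k hform
  have hJ0 : Jac δ ξ' ≠ 0 := hδ2
  have hk : k = Scheme.ord (Jac δ ξ') E.1 := hδ3
  have hC : ∀ z : ℂ, algebraMap ℂ W.X.functionField z ∈ O E.1 := fun z => reg_ffHom W.str E.1 z
  have hvu : Scheme.ord u' E.1 = -Scheme.ord (wq ξ' q) E.1 := by
    rw [hu]
    exact v_inv hDV _ (wq_ne ξ' hξ'0 q)
  have hpos : ∀ a : M.X.functionField, a ≠ 0 → RegAt (g E.1) a → ¬ UnitAt (g E.1) a →
      0 < Scheme.ord (φ a) E.1 := by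
    intro a ha h1 h2
    have h3 := hreg a h1
    have h4 : φ a ≠ 0 := (map_ne_zero φ).2 ha
    have h5 := (o1 _ h4).1 h3.1
    have h6 : Scheme.ord (φ a) E.1 ≠ 0 := by
      intro h7
      exact h2 (h3.2.1 ((o2 _ h4).2 h7))
    omega
  by_cases hcase : ∃ i : Fin 3, Qc (ch i) ∉ M.P (g E.1)
  · obtain ⟨i, hi⟩ := hcase
    obtain ⟨P, hPp, hPr, hPh⟩ := hXP M ξ hξ i (g E.1) hi
    obtain ⟨hJi, hvi⟩ := v_chart hJC hDV δ ξ' hξ'0 hJ0 i
    -- the weights
    have hw : Scheme.ord (wq ξ' q) E.1 = Scheme.ord (wq ξ' (ch i)) E.1 := by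
      have h1 := ((hXU M ξ hξ q (ch i) (g E.1) hi).2).2 hq
      have h2 := hunit _ h1
      rw [map_div₀, map_wq, map_wq, ← hξ'] at h2
      have h3 := (o2 _ (UnitAt.ne_zero h2)).1 h2
      rw [v_div hDV _ _ (wq_ne ξ' hξ'0 _) (wq_ne ξ' hξ'0 _)] at h3
      omega
    have hsum : 2 * k + 5 * Scheme.ord u' E.1 = 2 * Scheme.ord (Jac δ (xi ξ' i)) E.1 := by
      rw [hvi, hvu, hw, hk]
      ring
    rw [hsum]
    have haev : ∀ F : MvPolynomial (Fin 3) ℂ, φ (aeval (xi ξ i) F) = aeval (xi ξ' i) F := by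
      intro F
      rw [map_aeval' φ hφC, hξ']
      congr 2
      funext j
      exact map_xi φ ξ i j
    have hregF : ∀ F : MvPolynomial (Fin 3) ℂ, RegAt (g E.1) (aeval (xi ξ i) F) :=
      (hXC M ξ hξ i (g E.1) hi).1
    have hO : ∀ j, xi ξ' i j ∈ O E.1 := by
      intro j
      have h1 := (hreg _ (hregF (X j))).1
      rw [haev, aeval_X] at h1
      exact h1
    obtain ⟨h1, h2⟩ := hLC W.X.functionField (O E.1) _ hDV hC δ hδ1 (xi ξ' i) hO hJi
    refine ⟨by simpa using h1, fun hco => ?_⟩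
    have hmemP : ∀ F, F ∈ P ↔ (aeval (xi ξ' i) F = 0 ∨ 0 < Scheme.ord (aeval (xi ξ' i) F) E.1) := by
      intro F
      rw [hPr F, ← haev F]
      by_cases hF : aeval (xi ξ i) F = 0
      · rw [hF, map_zero]
        exact ⟨fun _ => Or.inl rfl, fun _ h => UnitAt.ne_zero h rfl⟩
      · constructor
        · intro h
          exact Or.inr (hpos _ hF (hregF F) h)
        · rintro (h | h) h'
          · exact (map_ne_zero φ).2 hF h
          · have := (o2 _ ((map_ne_zero φ).2 hF)).1 (hunit _ h')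
            omega
    have hht : 2 ≤ P.height := by
      rw [hPh]
      by_contra hlt
      have h3 : Order.coheight (g E.1) = 0 := by
        have h4 : Order.coheight (g E.1) < 2 := not_le.1 hlt
        have h5 : Order.coheight (g E.1) ≤ 1 := by
          refine Order.le_of_lt_add_one ?_
          rw [one_add_one_eq_two]
          exact h4
        by_contra h6
        exact hco (le_antisymm h5 (Order.one_le_iff_ne_zero.2 h6))
      have h4 : g E.1 = genericPoint M.X := by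
        have h5 := Order.coheight_eq_zero.1 h3
        have h6 : genericPoint M.X ⤳ g E.1 := genericPoint_specializes _
        have h7 : g E.1 ≤ genericPoint M.X := h6
        have h8 : genericPoint M.X ≤ g E.1 := h5 h7
        have h9 : g E.1 ⤳ genericPoint M.X := h8
        exact (h9.antisymm h6).eq
      obtain ⟨b, hb0, hb1⟩ := o3
      obtain ⟨s, hs⟩ := hbir.2.2 b
      have h5 : b = φ (algebraMap _ M.X.functionField s) := hφ2 _ _ ⟨s, rfl, hs⟩
      have h6 : UnitAt (g (genericPoint W.X)) (algebraMap _ M.X.functionField s) :=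
        (p4 _ _ (hφ1 _)).2 (by rw [← h5]; exact hb0)
      have h7 : UnitAt E.1 b := by
        rw [h5]
        refine hunit _ ?_
        have h8 : g (genericPoint W.X) = g E.1 := by rw [h4, hbir.1]
        rw [← h8]
        exact h6
      have := (o2 b hb0).1 h7
      omega
    have := h2 P hPp hmemP hht
    have : 1 ≤ Scheme.ord (Jac δ (xi ξ' i)) E.1 := this
    omega
  · push Not at hcase
    have hq3 : q = 3 := by
      fin_cases q
      · exact absurd (hcase 0) hq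
      · exact absurd (hcase 1) hq
      · exact absurd (hcase 2) hq
      · rfl
    subst hq3
    have hw3 : wq ξ 3 = ξ 2 := rfl
    have hw3' : wq ξ' 3 = ξ' 2 := rfl
    have hne := wq_ne ξ hξ0
    have hne' := wq_ne ξ' hξ'0
    have key : ∀ i : Fin 3, Scheme.ord (ξ' 2) E.1 < Scheme.ord (wq ξ' (ch i)) E.1 := by
      intro i
      obtain ⟨h1, h2⟩ := hXU M ξ hξ (ch i) 3 (g E.1) hq
      have h3 := hpos _ (div_ne_zero (hne _) (hne _)) h1 (fun h => (h2.1 h) (hcase i))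
      rw [map_div₀, map_wq, map_wq, ← hξ', v_div hDV _ _ (hne' _) (hne' _)] at h3
      rw [hw3'] at h3
      omega
    have k0 : Scheme.ord (ξ' 2) E.1 < 0 := by
      have h1 := key 0
      have h2 : wq ξ' (ch 0) = 1 := rfl
      rw [h2, v_one hDV] at h1
      exact h1
    have k1 : Scheme.ord (ξ' 2) E.1 < 2 * Scheme.ord (ξ' 0) E.1 := by
      have h1 := key 1
      have h2 : wq ξ' (ch 1) = ξ' 0 ^ 2 := rfl
      rw [h2, v_pow hDV _ (hξ'0 0)] at h1
      exact h1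
    have k2 : Scheme.ord (ξ' 2) E.1 < 2 * Scheme.ord (ξ' 1) E.1 := by
      have h1 := key 2
      have h2 : wq ξ' (ch 2) = ξ' 1 ^ 2 := rfl
      rw [h2, v_pow hDV _ (hξ'0 1)] at h1
      exact h1
    have hfin := hLS W.X.functionField (O E.1) _ hDV hC δ hδ1 ξ' hξ'0 hJ0 k0 k1 k2
    have hfin' : 5 * Scheme.ord (ξ' 2) E.1 < 2 * Scheme.ord (Jac δ ξ') E.1 := hfin
    rw [hvu, hw3', hk]
    constructor
    · omega
    · intro _
      omega

end GMC
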