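import Pool.Agent.H30.GMC.StT

/-!
GMC, module XODX: orders of the coordinates at the divisor `x_0 = 0`.
-/

open AlgebraicGeometry CategoryTheory FCB MvPolynomial

namespace GMC

theorem XODX.dh_Qc0 : dh 1 (Qc 0) = X 0 ^ 2 := by
  simp [dh, rho, Qc, Q, mon, hc, pow_two]

theorem XODX.span_isPrime : (Ideal.span {(X 0 : MvPolynomial (Fin 3) ℂ)}).IsPrime :=
  (Ideal.span_singleton_prime (X_ne_zero 0)).2 (X_prime (R := ℂ) (i := (0 : Fin 3)))

theorem XODX.notMem (j : Fin 3) (hj : j ≠ 0) :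
    (X j : MvPolynomial (Fin 3) ℂ) ∉ Ideal.span {(X 0 : MvPolynomial (Fin 3) ℂ)} := by
  rw [Ideal.mem_span_singleton, X_dvd_X]
  exact fun h => hj h.symm

theorem xodx_thm (hPD : S_XPDH) (hPR : S_XPRI) (hOF : S_XORF) (hXI : S_XIEX) : S_XODX := by
  intro M ξ hξ D hD
  let iA : Algebra ℂ M.X.functionField := (ffHom M.str).toAlgebra
  obtain ⟨d0, d1, d2, d3, d4⟩ := hD
  have hch : Qc (ch 1) ∉ M.P D.1 := d1
  obtain ⟨P, hP, hPr, hht⟩ := hPR M ξ hξ 1 D.1 hch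
  have h1 := (hPD M ξ hξ 1 D.1 P hch hPr 1 (Qc 0) (by
    simpa [Qc, Q] using isHomogeneous_X ℂ _)).1 d0
  rw [XODX.dh_Qc0] at h1
  have h2 : (X 0 : MvPolynomial (Fin 3) ℂ) ∈ P := hP.mem_of_pow_mem _ h1
  have hle : Ideal.span {(X 0 : MvPolynomial (Fin 3) ℂ)} ≤ P := by
    rw [Ideal.span_le]
    simpa using h2
  have hsp := XODX.span_isPrime
  have heq : Ideal.span {(X 0 : MvPolynomial (Fin 3) ℂ)} = P := by
    by_contra hne
    have hlt := lt_of_le_of_ne hle hne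
    have h3 := Ideal.height_add_one_le_of_lt_of_isPrime hlt
    have hbot : (⊥ : Ideal (MvPolynomial (Fin 3) ℂ)).IsPrime := Ideal.isPrime_bot
    have hlt2 : (⊥ : Ideal (MvPolynomial (Fin 3) ℂ)) < Ideal.span {X 0} := by
      rw [bot_lt_iff_ne_bot]
      intro h
      exact X_ne_zero (0 : Fin 3) (Ideal.span_singleton_eq_bot.1 h)
    have h4 := Ideal.height_add_one_le_of_lt_of_isPrime hlt2
    rw [hht, D.2] at h3
    have h5 : (1 : ℕ∞) ≤ (Ideal.span {(X 0 : MvPolynomial (Fin 3) ℂ)}).height :=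
      le_trans (by simp) h4
    have h6 : (1 : ℕ∞) + 1 ≤ 1 := le_trans (add_le_add_left h5 1) h3
    norm_num at h6
  rw [← heq] at hPr
  obtain ⟨x0, -, -⟩ := (hXI M).2 ξ hξ
  have e0 := (hOF M ξ hξ 1 D (X 0) hch).1 hPr
  have e1 := (hOF M ξ hξ 1 D (X 1) hch).2 _ hPr (XODX.notMem 1 (by decide))
  have e2 := (hOF M ξ hξ 1 D (X 2) hch).2 _ hPr (XODX.notMem 2 (by decide))
  rw [aeval_X] at e0 e1 e2
  have i0 : (ξ 0)⁻¹ ≠ 0 := inv_ne_zero (x0 0)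
  have f0 : Scheme.ord (ξ 0)⁻¹ D.1 = 1 := e0
  have f1 : Scheme.ord (ξ 1 * (ξ 0)⁻¹) D.1 = 0 := e1
  have f2 : Scheme.ord (ξ 2 * (ξ 0)⁻¹ ^ 2) D.1 = 0 := e2
  rw [Scheme.ord_mul (x0 1) i0] at f1
  rw [pow_two, Scheme.ord_mul (x0 2) (mul_ne_zero i0 i0), Scheme.ord_mul i0 i0] at f2
  have f3 : Scheme.ord (ξ 0 * (ξ 0)⁻¹) D.1 = 0 := by
    rw [mul_inv_cancel₀ (x0 0)]
    have := Scheme.ord_mul (x := D.1) (one_ne_zero (α := M.X.functionField))
      (one_ne_zero (α := M.X.functionField))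
    rw [mul_one] at this
    omega
  rw [Scheme.ord_mul (x0 0) i0] at f3
  exact ⟨by omega, by omega, by omega, hPr⟩

end GMC
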