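import Pool.Agent.H30.GMC.StT

/-!
GMC, module XORF: orders of polynomials in the coordinates of a chart.
-/

open AlgebraicGeometry CategoryTheory FCB MvPolynomial

namespace GMC

theorem xorf_thm (hOR : S_ORDV) (hNO : S_XNOR) (hXC : S_XCHA) : S_XORF := by
  intro M ξ hξ
  let iA : Algebra ℂ M.X.functionField := (ffHom M.str).toAlgebra
  intro i p F hi
  obtain ⟨o1, o2, o3⟩ := hOR M.X p (hNO M p.1)
  obtain ⟨c1, c2⟩ := hXC M ξ hξ i p.1 hi
  have hne : ∀ {f : M.X.functionField}, UnitAt p.1 f → f ≠ 0 := by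
    rintro f ⟨s, hs, rfl⟩
    exact (hs.map (algebraMap _ M.X.functionField)).ne_zero
  constructor
  · intro hpr
    obtain ⟨f, hf0, hf1⟩ := o3
    obtain ⟨H, G, hG, hfG⟩ := c2 f ((o1 f hf0).2 (by omega))
    have hG0 := hne hG
    have hH : Scheme.ord (aeval (xi ξ i) H) p.1 = 1 := by
      rw [← hfG, Scheme.ord_mul hf0 hG0, hf1, (o2 _ hG0).1 hG]
      rfl
    have hH0 : aeval (xi ξ i) H ≠ 0 := by
      rw [← hfG]
      exact mul_ne_zero hf0 hG0
    have hHm : H ∈ Ideal.span {F} := by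
      rw [hpr]
      intro hu
      have := (o2 _ hH0).1 hu
      omega
    obtain ⟨H', rfl⟩ := Ideal.mem_span_singleton.1 hHm
    rw [map_mul] at hH hH0
    have h1 := left_ne_zero_of_mul hH0
    have h2 := right_ne_zero_of_mul hH0
    rw [Scheme.ord_mul h1 h2] at hH
    have h3 := (o1 _ h1).1 (c1 F)
    have h4 := (o1 _ h2).1 (c1 H')
    have h5 : Scheme.ord (aeval (xi ξ i) F) p.1 ≠ 0 := by
      intro h6
      exact (hpr F).1 (Ideal.mem_span_singleton_self F) ((o2 _ h1).2 h6)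
    omega
  · intro P hP hF
    have hu : UnitAt p.1 (aeval (xi ξ i) F) := by
      by_contra h
      exact hF ((hP F).2 h)
    exact (o2 _ (hne hu)).1 hu

end GMC
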