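import Pool.Agent.H30.GMC.StT

/-!
GMC, module XPRE: every prime ideal is the prime ideal of a point of the chart `i`.
-/

open AlgebraicGeometry CategoryTheory FCB MvPolynomial

namespace GMC

namespace XPRE

/-- The homogeneous core of an ideal: homogeneous components. -/
theorem mem_core (n : ℕ) (I : Ideal (MvPolynomial (Fin (n + 1)) ℂ))
    (p : MvPolynomial (Fin (n + 1)) ℂ) :
    p ∈ (I.homogeneousCore (grd n)).toIdeal ↔ ∀ d, homogeneousComponent d p ∈ I := by
  constructor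
  · intro h d
    have h1 := (I.homogeneousCore (grd n)).isHomogeneous d h
    have h2 : ((DirectSum.decompose (grd n) p) d : MvPolynomial (Fin (n + 1)) ℂ) =
        homogeneousComponent d p := decomposition.decompose'_apply p d
    rw [h2] at h1
    exact Ideal.toIdeal_homogeneousCore_le (grd n) I h1
  · intro h
    rw [← sum_homogeneousComponent p]
    refine Ideal.sum_mem _ fun d _ => ?_
    exact Ideal.mem_homogeneousCore_of_homogeneous_of_mem ⟨d, homogeneousComponent_mem d p⟩ (h d)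

theorem core_prime (n : ℕ) (I : Ideal (MvPolynomial (Fin (n + 1)) ℂ)) (hI : I.IsPrime) :
    (I.homogeneousCore (grd n)).toIdeal.IsPrime := hI.homogeneousCore

end XPRE

open XPRE in
theorem xpre_thm (hPS : S_PSB) (hVP : S_VPT) (hRL : S_RLOC) (hXI : S_XIDL) (hXD : S_XDEH) :
    S_XPRE := by
  intro M ξ hξ i p hp
  let iA : Algebra ℂ M.X.functionField := (ffHom M.str).toAlgebra
  obtain ⟨b1, b2, b3, b4, b5, b6⟩ := hPS 9
  let J' : Ideal (MvPolynomial (Fin 10) ℂ) := p.comap (dh i)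
  have hJ' : J'.IsPrime := Ideal.comap_isPrime _ _
  let J : Ideal (MvPolynomial (Fin 10) ℂ) := (J'.homogeneousCore (grd 9)).toIdeal
  have hmem : ∀ A, A ∈ J ↔ ∀ d, homogeneousComponent d A ∈ J' := mem_core 9 J'
  have hmem2 : ∀ d, ∀ A ∈ grd 9 d, (A ∈ J ↔ dh i A ∈ p) := by
    intro d A hA
    constructor
    · intro h
      exact Ideal.toIdeal_homogeneousCore_le (grd 9) J' h
    · intro h
      exact Ideal.mem_homogeneousCore_of_homogeneous_of_mem ⟨d, hA⟩ h
  have hJ : J.IsPrime := core_prime 9 J' hJ'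
  have hQ : ∀ q, Qc q ∈ grd 9 1 := by
    intro q
    fin_cases q <;> exact isHomogeneous_X ℂ _
  have hdQ : dh i (Qc (ch i)) = 1 := by
    fin_cases i <;> simp [dh, rho, Qc, Q, mon, hc, ch]
  have hQJ : Qc (ch i) ∉ J := by
    rw [hmem2 1 _ (hQ _), hdQ]
    exact fun h => hp.ne_top ((Ideal.eq_top_iff_one _).2 h)
  obtain ⟨x0, hx0⟩ := b4 J hJ (by
    intro A hA d
    rw [hmem2 d _ (homogeneousComponent_mem d A)]
    exact (hmem A).1 hA d) (by
    have : ∃ k, (X k : MvPolynomial (Fin 10) ℂ) = Qc (ch i) := by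
      fin_cases i <;> exact ⟨_, rfl⟩
    obtain ⟨k, hk⟩ := this
    exact ⟨k, by rw [hk]; exact hQJ⟩)
  obtain ⟨v1, v2, v3, v4⟩ := hVP M.V
  obtain ⟨x, hx⟩ := v2 x0 (by
    rw [hx0]
    have hgen : M.V.I = IX := M.gen
    rw [hgen]
    intro A hA
    rw [hmem]
    intro d
    have h1 := hXI.2.1 A hA d
    change dh i (homogeneousComponent d A) ∈ p
    have h2 : rho (homogeneousComponent d A) = 0 := h1
    rw [dh, AlgHom.comp_apply, h2, map_zero]
    exact p.zero_mem)
  have hPx : M.P x = J := by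
    rw [← hx0, ← hx]
    rfl
  refine ⟨x, ?_, ?_⟩
  · rw [hPx]
    exact hQJ
  · intro F
    obtain ⟨d, A, hA, rfl⟩ := (hXD M ξ hξ i).2 F
    have h1 := (hXD M ξ hξ i).1 d A hA
    have h2 := (hRL M.X 9 M.emb x A (Qc (ch i) ^ d) _ h1 (by
      change _ ∉ M.P x
      rw [hPx]
      exact fun h => hQJ (hJ.mem_of_pow_mem _ h))).2
    rw [h2, not_not]
    change _ ↔ A ∈ M.P x
    rw [hPx, hmem2 d A hA]

end GMC
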